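import Mathlib
import Pool.Agent.H54.G.W848.RK.HT
import Pool.Agent.H54.G.TH53.HR3
import Pool.Agent.H54.G.W369.RK.CONJ

set_option autoImplicit false
set_option linter.unusedVariables false

/-!
# The height inequality with a Vandermonde determinant
-/

namespace Pool.Agent.TH53.RP

open NumberField Height Module
open Pool.Agent.W237.RK
open Pool.Agent.W848.RK
open Pool.Agent.Helper259.AbsHt
open Pool.Agent.H58P (Qb ht qb_isIntegral)

section core

variable {G : Type*} [Fintype G] {d : ℕ} (U V : G → Fin d → Qb)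

theorem core2 (p : ℕ) [hp : Fact p.Prime] (φ : Qb →+* PadicAlgCl p) (M : GF)
    (hU : ∀ g s, U g s ∈ M) (hV : ∀ g s, V g s ∈ M) (hne : ∀ g s, U g s ≠ V g s)
    (hcj : ∀ W : ValuationSubring Qb, W.valuation (p : Qb) < 1 → ∃ (π : G ≃ G) (ρ : Aut),
      (∀ g s, ρ (U g s) = U (π g) s) ∧ (∀ g s, ρ (V g s) = V (π g) s) ∧
      ∀ x ∈ M, (x ∈ W ↔ ‖φ (ρ x)‖ ≤ 1))
    (A : ℝ) (hA0 : 0 < A) (hA : ∀ ψ : Qb →+* ℂ, ‖ψ (N0 U V)‖ ≤ A *
      ∏ q : G × Fin d, (max 1 ‖ψ (U q.1 q.2)‖ * max 1 ‖ψ (V q.1 q.2)‖))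
    (T : Finset G) (δ : ℝ) (hδ0 : 0 < δ) (hδ1 : δ ≤ 1)
    (hT : ∀ g ∈ T, ∏ s, ‖φ (U g s - V g s)‖ ≤ δ * ∏ s, (max 1 ‖φ (U g s)‖ * max 1 ‖φ (V g s)‖)) :
    (T.card : ℝ) * -Real.log δ ≤
      ∑ q : G × Fin d, (ht (U q.1 q.2) + ht (V q.1 q.2)) + Real.log A := by
  classical
  have hpp : p.Prime := hp.out
  have hp0 : (0 : ℝ) < p := by exact_mod_cast hpp.pos
  have hp1 : (1 : ℝ) < p := by exact_mod_cast hpp.one_lt
  have hlogp : 0 < Real.log p := Real.log_pos hp1
  have hlogδ : 0 ≤ -Real.log δ := by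
    have := Real.log_nonpos hδ0.le hδ1
    linarith
  have hN0 := N0_ne U V hne
  have hw := ht_wv U V
  set H : ℝ := ∑ q : G × Fin d, (ht (U q.1 q.2) + ht (V q.1 q.2)) with hH
  -- local inequality at `φ`
  have hloc : ‖φ (N0 U V)‖ ≤ δ ^ T.card *
      ∏ q : G × Fin d, (max 1 ‖φ (U q.1 q.2)‖ * max 1 ‖φ (V q.1 q.2)‖) := by
    have hg : ∀ g : G, ∏ s, ‖φ (U g s - V g s)‖ ≤ (if g ∈ T then δ else 1) *
        ∏ s, (max 1 ‖φ (U g s)‖ * max 1 ‖φ (V g s)‖) := by
      intro g
      by_cases h : g ∈ T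
      · rw [if_pos h]
        exact hT g h
      · rw [if_neg h, one_mul]
        apply Finset.prod_le_prod
        · intro s _
          exact norm_nonneg _
        · intro s _
          rw [map_sub]
          have h1 : ‖φ (U g s) - φ (V g s)‖ ≤ max ‖φ (U g s)‖ ‖φ (V g s)‖ :=
            by
              have := PadicAlgCl.isNonarchimedean p (φ (U g s)) (-φ (V g s))
              rwa [norm_neg, ← sub_eq_add_neg] at this
          have h2 := le_max_left 1 ‖φ (U g s)‖
          have h3 := le_max_right 1 ‖φ (U g s)‖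
          have h4 := le_max_left 1 ‖φ (V g s)‖
          have h5 := le_max_right 1 ‖φ (V g s)‖
          refine h1.trans (max_le ?_ ?_)
          · nlinarith [norm_nonneg (φ (U g s))]
          · nlinarith [norm_nonneg (φ (V g s))]
    rw [N0, map_prod, norm_prod, Fintype.prod_prod_type, Fintype.prod_prod_type]
    calc ∏ g, ∏ s, ‖φ (U g s - V g s)‖
        ≤ ∏ g : G, ((if g ∈ T then δ else 1) *
          ∏ s, (max 1 ‖φ (U g s)‖ * max 1 ‖φ (V g s)‖)) :=
          Finset.prod_le_prod (fun g _ => Finset.prod_nonneg fun s _ => norm_nonneg _)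
            fun g _ => hg g
      _ = _ := by
          rw [Finset.prod_mul_distrib]
          congr 1
          rw [Finset.prod_ite]
          simp
  -- main inequality
  have key : ∀ r : ℕ, (r : ℝ) * ((T.card : ℝ) * -Real.log δ) - Real.log p ≤
      (r : ℝ) * (H + Real.log A) := by
    intro r
    set b : ℕ := ⌊((r : ℝ) * ((T.card : ℝ) * -Real.log δ)) / Real.log p⌋₊ with hb
    have hb1 : (b : ℝ) * Real.log p ≤ (r : ℝ) * ((T.card : ℝ) * -Real.log δ) := by
      rw [← le_div_iff₀ hlogp]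
      exact Nat.floor_le (by positivity)
    have hb2 : (r : ℝ) * ((T.card : ℝ) * -Real.log δ) < (b + 1 : ℝ) * Real.log p := by
      rw [← div_lt_iff₀ hlogp]
      exact Nat.lt_floor_add_one _
    let c : Qb := (p : Qb) ^ b * (N0 U V ^ r)⁻¹
    have hpQ : (p : Qb) ≠ 0 := by exact_mod_cast hpp.ne_zero
    have hc : c ≠ 0 := mul_ne_zero (pow_ne_zero _ hpQ) (inv_ne_zero (pow_ne_zero _ hN0))
    have hx : absLogHeight (c • fun f => wv U V f ^ r) = r * H := by
      rw [absLogHeight_smul _ hc, absLogHeight_powfam, hw]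
    have hle : Real.log ((p : ℝ) ^ b / A ^ r) ≤
        absLogHeight (c • fun f => wv U V f ^ r) := by
      apply height_geR
      · positivity
      · intro W
        have hpW : W.valuation (p : Qb) ≤ 1 := by
          rw [ValuationSubring.valuation_le_one_iff]
          exact natCast_mem W p
        rcases lt_or_eq_of_le hpW with h | h
        · obtain ⟨π, ρ, hρU, hρV, hρ⟩ := hcj W h
          obtain ⟨f, hf⟩ := exists_max U V (fun x => ‖φ (ρ x)‖) (by simp) (by simp)
          have hf1 : ‖φ (ρ (wv U V f))‖ =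
              ∏ q : G × Fin d, (max 1 ‖φ (U q.1 q.2)‖ * max 1 ‖φ (V q.1 q.2)‖) := by
            have h1 : ‖φ (ρ (wv U V f))‖ = ∏ q : G × Fin d,
              (max 1 ‖φ (ρ (U q.1 q.2))‖ * max 1 ‖φ (ρ (V q.1 q.2))‖) := hf
            rw [h1]
            simp only [hρU, hρV]
            exact Equiv.prod_comp (π.prodCongr (Equiv.refl (Fin d)))
              (fun q : G × Fin d => (max 1 ‖φ (U q.1 q.2)‖ * max 1 ‖φ (V q.1 q.2)‖))
          have hN1 : ρ (N0 U V) = N0 U V := by
            rw [N0, map_prod]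
            simp only [map_sub, hρU, hρV]
            exact Equiv.prod_comp (π.prodCongr (Equiv.refl (Fin d)))
              (fun q : G × Fin d => (U q.1 q.2 - V q.1 q.2))
          refine ⟨f, ?_⟩
          -- the element and its norm
          have hP1 : (1 : ℝ) ≤ ∏ q : G × Fin d,
              (max 1 ‖φ (U q.1 q.2)‖ * max 1 ‖φ (V q.1 q.2)‖) := by
            refine Finset.prod_induction _ (fun x : ℝ => 1 ≤ x) ?_ le_rfl ?_
            · intro a b ha hb
              exact one_le_mul_of_one_le_of_one_le ha hb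
            · intro q _
              exact one_le_mul_of_one_le_of_one_le (le_max_left _ _) (le_max_left _ _)
          have hwf0 : wv U V f ≠ 0 := by
            intro h0
            rw [h0, map_zero, map_zero, norm_zero] at hf1
            rw [← hf1] at hP1
            linarith
          have hx0 : c * wv U V f ^ r ≠ 0 := mul_ne_zero hc (pow_ne_zero _ hwf0)
          have hxM : (c * wv U V f ^ r)⁻¹ ∈ M := by
            have h1 : N0 U V ∈ M := prod_mem fun q _ => sub_mem (hU _ _) (hV _ _)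
            have h2 : wv U V f ∈ M := by
              refine prod_mem fun q _ => mul_mem ?_ ?_
              · generalize (f q).1 = j
                fin_cases j
                · simp
                · simpa using hU q.1 q.2
              · generalize (f q).2 = j
                fin_cases j
                · simp
                · simpa using hV q.1 q.2
            exact inv_mem (mul_mem (mul_mem (pow_mem (natCast_mem _ _) _)
              (inv_mem (pow_mem h1 _))) (pow_mem h2 _))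
          have hnorm : 1 ≤ ‖φ (ρ (c * wv U V f ^ r))‖ := by
            have e1 : ‖φ (ρ (c * wv U V f ^ r))‖ = ((p : ℝ)⁻¹) ^ b * (‖φ (N0 U V)‖ ^ r)⁻¹ *
                ‖φ (ρ (wv U V f))‖ ^ r := by
              have hp' : ‖φ (ρ (p : Qb))‖ = (p : ℝ)⁻¹ := by
                rw [map_natCast, map_natCast]
                have h2 := PadicAlgCl.norm_extends p (p : ℚ_[p])
                rw [Padic.norm_p] at h2
                rw [← h2]
                congr 1
              rw [show c = (p : Qb) ^ b * (N0 U V ^ r)⁻¹ from rfl]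
              simp only [map_mul, map_pow, map_inv₀, norm_mul, norm_pow, norm_inv, hN1, hp']
            have hX : 0 < ‖φ (N0 U V)‖ := norm_pos_iff.mpr ((map_ne_zero φ).mpr hN0)
            rw [e1, hf1]
            set P : ℝ := ∏ q : G × Fin d, (max 1 ‖φ (U q.1 q.2)‖ * max 1 ‖φ (V q.1 q.2)‖)
            have hP0 : 0 < P := by linarith
            have hXr : ‖φ (N0 U V)‖ ^ r ≤ (δ ^ T.card) ^ r * P ^ r := by
              rw [← mul_pow]
              exact pow_le_pow_left₀ hX.le hloc r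
            have hpb : (p : ℝ) ^ b * (δ ^ T.card) ^ r ≤ 1 := by
              rw [← Real.log_nonpos_iff (by positivity),
                Real.log_mul (by positivity) (by positivity), Real.log_pow, Real.log_pow,
                Real.log_pow]
              nlinarith
            have h5 : (p : ℝ) ^ b * ‖φ (N0 U V)‖ ^ r ≤ P ^ r := by
              calc (p : ℝ) ^ b * ‖φ (N0 U V)‖ ^ r ≤ (p : ℝ) ^ b * ((δ ^ T.card) ^ r * P ^ r) := by
                    gcongr
                _ = ((p : ℝ) ^ b * (δ ^ T.card) ^ r) * P ^ r := by ring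
                _ ≤ 1 * P ^ r := by gcongr
                _ = P ^ r := one_mul _
            rw [inv_pow, ← mul_inv, ← div_eq_inv_mul, one_le_div (by positivity)]
            exact h5
          have h1 : (c * wv U V f ^ r)⁻¹ ∈ W := by
            rw [hρ _ hxM, map_inv₀, map_inv₀, norm_inv]
            exact inv_le_one_of_one_le₀ hnorm
          rw [← ValuationSubring.valuation_le_one_iff, map_inv₀] at h1
          show 1 ≤ W.valuation (c * wv U V f ^ r)
          exact (inv_le_one₀ (zero_lt_iff.mpr ((Valuation.ne_zero_iff _).mpr hx0))).mp h1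
        · obtain ⟨f, hf⟩ := exists_max U V (fun x => W.valuation x) (by simp) (by simp)
          refine ⟨f, ?_⟩
          have hN : W.valuation (N0 U V) ≤ W.valuation (wv U V f) := by
            rw [hf, N0, map_prod]
            apply Finset.prod_le_prod'
            intro q _
            refine (Valuation.map_sub _ _ _).trans (max_le ?_ ?_)
            · calc W.valuation (U q.1 q.2) ≤ max 1 (W.valuation (U q.1 q.2)) := le_max_right _ _
                _ = max 1 (W.valuation (U q.1 q.2)) * 1 := (mul_one _).symm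
                _ ≤ _ := mul_le_mul' le_rfl (le_max_left _ _)
            · calc W.valuation (V q.1 q.2) ≤ max 1 (W.valuation (V q.1 q.2)) := le_max_right _ _
                _ = 1 * max 1 (W.valuation (V q.1 q.2)) := (one_mul _).symm
                _ ≤ _ := mul_le_mul' (le_max_left _ _) le_rfl
          have hN' : W.valuation (N0 U V) ≠ 0 := (Valuation.ne_zero_iff _).mpr hN0
          show 1 ≤ W.valuation ((p : Qb) ^ b * (N0 U V ^ r)⁻¹ * wv U V f ^ r)
          rw [map_mul, map_mul, map_pow, map_inv₀, map_pow, map_pow, h, one_pow, one_mul,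
            ← inv_mul_cancel₀ (pow_ne_zero r hN')]
          exact mul_le_mul' le_rfl (pow_le_pow_left' hN r)
      · intro ψ
        obtain ⟨f, hf⟩ := exists_max U V (fun x => ‖ψ x‖) (by simp) (by simp)
        refine ⟨f, ?_⟩
        have hN : ‖ψ (N0 U V)‖ ≤ A * ‖ψ (wv U V f)‖ := by
          have hf' : ‖ψ (wv U V f)‖ = ∏ q : G × Fin d,
              (max 1 ‖ψ (U q.1 q.2)‖ * max 1 ‖ψ (V q.1 q.2)‖) := hf
          rw [hf']
          exact hA ψ
        have hX : 0 < ‖ψ (N0 U V)‖ := norm_pos_iff.mpr ((map_ne_zero ψ).mpr hN0)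
        show (p : ℝ) ^ b / A ^ r ≤ ‖ψ ((p : Qb) ^ b * (N0 U V ^ r)⁻¹ * wv U V f ^ r)‖
        have e1 : ‖ψ ((p : Qb) ^ b * (N0 U V ^ r)⁻¹ * wv U V f ^ r)‖ =
            (p : ℝ) ^ b * (‖ψ (N0 U V)‖ ^ r)⁻¹ * ‖ψ (wv U V f)‖ ^ r := by
          simp only [map_mul, map_pow, map_inv₀, norm_mul, norm_pow, norm_inv, map_natCast,
            Complex.norm_natCast]
        rw [e1]
        have hXr : ‖ψ (N0 U V)‖ ^ r ≤ A ^ r * ‖ψ (wv U V f)‖ ^ r := by
          rw [← mul_pow]
          exact pow_le_pow_left₀ hX.le hN r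
        rw [div_le_iff₀ (by positivity)]
        calc (p : ℝ) ^ b = (p : ℝ) ^ b * ((‖ψ (N0 U V)‖ ^ r)⁻¹ * ‖ψ (N0 U V)‖ ^ r) := by
              rw [inv_mul_cancel₀ (by positivity), mul_one]
          _ ≤ (p : ℝ) ^ b * ((‖ψ (N0 U V)‖ ^ r)⁻¹ * (A ^ r * ‖ψ (wv U V f)‖ ^ r)) := by
              gcongr
          _ = _ := by ring
    rw [hx, Real.log_div (by positivity) (by positivity), Real.log_pow, Real.log_pow] at hle
    nlinarith
  by_contra hcon
  push Not at hcon
  set A' := (T.card : ℝ) * -Real.log δ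
  set B := H + Real.log A
  obtain ⟨r, hr⟩ := exists_nat_gt (Real.log p / (A' - B))
  have h1 := key r
  rw [div_lt_iff₀ (by linarith)] at hr
  nlinarith

end core

section vand

/-- ordered pairs of distinct indices -/
abbrev OP (n : ℕ) : Type := {q : Fin n × Fin n // q.2 ∈ ({q.1}ᶜ : Finset (Fin n))}

lemma prod_OP {M : Type*} [CommMonoid M] {n : ℕ} (F : Fin n → Fin n → M) :
    ∏ q : OP n, F q.1.1 q.1.2 = ∏ i, ∏ j ∈ ({i}ᶜ : Finset (Fin n)), F i j := by
  classical
  rw [← Finset.prod_subtype (p := fun q : Fin n × Fin n => q.2 ∈ ({q.1}ᶜ : Finset (Fin n)))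
    (Finset.univ.filter fun q : Fin n × Fin n => q.2 ∈ ({q.1}ᶜ : Finset (Fin n)))
    (fun q => by simp) (fun q => F q.1 q.2)]
  rw [Finset.prod_filter, Fintype.prod_prod_type]
  refine Finset.prod_congr rfl fun i _ => ?_
  rw [← Finset.prod_filter]
  refine Finset.prod_congr ?_ fun _ _ => rfl
  ext j
  simp

lemma prod_split {M : Type*} [CommMonoid M] {n : ℕ} (F : Fin n → Fin n → M) :
    ∏ i, ∏ j ∈ ({i}ᶜ : Finset (Fin n)), F i j =
      (∏ i, ∏ j ∈ Finset.Ioi i, F i j) * ∏ i, ∏ j ∈ Finset.Ioi i, F j i := by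
  classical
  have h1 : ∀ i : Fin n, ∏ j ∈ ({i}ᶜ : Finset (Fin n)), F i j =
      (∏ j ∈ Finset.Ioi i, F i j) * ∏ j ∈ Finset.Iio i, F i j := by
    intro i
    rw [← Finset.Ioi_disjUnion_Iio, Finset.prod_disjUnion]
  simp only [h1]
  rw [Finset.prod_mul_distrib]
  congr 1
  apply Finset.prod_comm'
  intro x y
  simp

lemma vand_norm {n : ℕ} (v : Fin n → ℂ) :
    ∏ i, ∏ j ∈ ({i}ᶜ : Finset (Fin n)), ‖v i - v j‖ = ‖(Matrix.vandermonde v).det‖ ^ 2 := by
  rw [prod_split, Matrix.det_vandermonde, norm_prod, pow_two]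
  congr 1
  · refine Finset.prod_congr rfl fun i _ => ?_
    rw [norm_prod]
    refine Finset.prod_congr rfl fun j _ => ?_
    rw [norm_sub_rev]
  · refine Finset.prod_congr rfl fun i _ => ?_
    rw [norm_prod]

lemma prod_mul_row {n : ℕ} (a : Fin n → ℝ) :
    ∏ i, ∏ j ∈ ({i}ᶜ : Finset (Fin n)), (a i * a j) = ∏ i, (a i) ^ (2 * (n - 1)) := by
  classical
  have h0 : ∀ i : Fin n, ({i}ᶜ : Finset (Fin n)).card = n - 1 := by
    intro i
    rw [Finset.card_compl, Fintype.card_fin, Finset.card_singleton]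
  have h1 : ∏ i, ∏ j ∈ ({i}ᶜ : Finset (Fin n)), a j = ∏ i, (a i) ^ (n - 1) := by
    have h2 : ∏ i, ∏ j ∈ ({i}ᶜ : Finset (Fin n)), a j =
        ∏ j, ∏ i ∈ ({j}ᶜ : Finset (Fin n)), a j := by
      apply Finset.prod_comm'
      intro x y
      simp only [Finset.mem_univ, Finset.mem_compl, Finset.mem_singleton, true_and, and_true]
      exact ne_comm
    rw [h2]
    refine Finset.prod_congr rfl fun i _ => ?_
    rw [Finset.prod_const, h0]
  simp only [Finset.prod_mul_distrib]
  rw [h1, ← Finset.prod_mul_distrib]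
  refine Finset.prod_congr rfl fun i _ => ?_
  rw [Finset.prod_const, h0, ← pow_add]
  congr 1
  omega

lemma sum_row {n : ℕ} (a : Fin n → ℝ) :
    ∑ i, ∑ j ∈ ({i}ᶜ : Finset (Fin n)), (a i + a j) = (2 * (n - 1 : ℕ)) * ∑ i, a i := by
  classical
  have h0 : ∀ i : Fin n, ({i}ᶜ : Finset (Fin n)).card = n - 1 := by
    intro i
    rw [Finset.card_compl, Fintype.card_fin, Finset.card_singleton]
  have h1 : ∑ i, ∑ j ∈ ({i}ᶜ : Finset (Fin n)), a j = (n - 1 : ℕ) * ∑ i, a i := by
    have h2 : ∑ i, ∑ j ∈ ({i}ᶜ : Finset (Fin n)), a j =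
        ∑ j, ∑ i ∈ ({j}ᶜ : Finset (Fin n)), a j := by
      apply Finset.sum_comm'
      intro x y
      simp only [Finset.mem_univ, Finset.mem_compl, Finset.mem_singleton, true_and, and_true]
      exact ne_comm
    rw [h2, Finset.mul_sum]
    refine Finset.sum_congr rfl fun i _ => ?_
    rw [Finset.sum_const, h0, nsmul_eq_mul]
  simp only [Finset.sum_add_distrib]
  rw [h1]
  have h3 : ∑ i, ∑ _j ∈ ({i}ᶜ : Finset (Fin n)), a i = (n - 1 : ℕ) * ∑ i, a i := by
    rw [Finset.mul_sum]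
    refine Finset.sum_congr rfl fun i _ => ?_
    rw [Finset.sum_const, h0, nsmul_eq_mul]
  rw [h3]
  ring

lemma sum_OP {n : ℕ} (F : Fin n → Fin n → ℝ) :
    ∑ q : OP n, F q.1.1 q.1.2 = ∑ i, ∑ j ∈ ({i}ᶜ : Finset (Fin n)), F i j := by
  have := prod_OP (M := Multiplicative ℝ) (fun i j => Multiplicative.ofAdd (F i j))
  exact this

end vand

/-- **the height inequality with a Vandermonde determinant** -/
theorem ht2 (p : ℕ) [Fact p.Prime] (φ : Qb →+* PadicAlgCl p) (M : GF)
    (hM : FiniteDimensional ℚ M) (hst : ∀ σ : Aut, ∀ x ∈ M, σ x ∈ M)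
    (n : ℕ) (z : Fin n → M) (hz : Function.Injective z)
    (T : Finset (M ≃ₐ[ℚ] M)) (δ : ℝ) (hδ0 : 0 < δ) (hδ1 : δ ≤ 1)
    (hT : ∀ τ ∈ T, ∏ i, ∏ j ∈ ({i}ᶜ : Finset (Fin n)),
        ‖φ ((τ (z i) : M) : Qb) - φ ((τ (z j) : M) : Qb)‖ ≤
      δ * ∏ i, ∏ j ∈ ({i}ᶜ : Finset (Fin n)),
        (max 1 ‖φ (τ (z i) : M)‖ * max 1 ‖φ (τ (z j) : M)‖)) :
    (T.card : ℝ) * -Real.log δ ≤
      (Module.finrank ℚ M : ℝ) * (n * Real.log n + (2 * (n - 1 : ℕ)) * ∑ i, ht (z i : Qb)) := by
  classical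
  have hnf : NumberField M := { to_charZero := inferInstance, to_finiteDimensional := hM }
  -- the embeddings
  let ι : (M ≃ₐ[ℚ] M) → (M →+* Qb) := fun τ => (algebraMap M Qb).comp (τ : M →+* M)
  have hι : Function.Injective ι := by
    intro τ τ' h
    ext x
    exact congrArg (fun g : M →+* Qb => g x) h
  have hfin : Finite (M ≃ₐ[ℚ] M) := Finite.of_injective ι hι
  have hft : Fintype (M ≃ₐ[ℚ] M) := Fintype.ofFinite _
  have hcard : (Fintype.card (M ≃ₐ[ℚ] M) : ℝ) ≤ Module.finrank ℚ M := by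
    have h1 := Fintype.card_le_of_injective ι hι
    have h2 := NumberField.Embeddings.card M Qb
    rw [h2] at h1
    have h3 : Fintype.card (M ≃ₐ[ℚ] M) ≤ Module.finrank ℚ M := by
      convert h1
    exact_mod_cast h3
  set d := Fintype.card (OP n) with hd
  set e : Fin d ≃ OP n := (Fintype.equivFin (OP n)).symm with he
  set U : (M ≃ₐ[ℚ] M) → Fin d → Qb := fun τ s => ((τ (z (e s).1.1) : M) : Qb) with hU
  set V : (M ≃ₐ[ℚ] M) → Fin d → Qb := fun τ s => ((τ (z (e s).1.2) : M) : Qb) with hV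
  have hprod : ∀ (F : (M ≃ₐ[ℚ] M) → Fin n → Fin n → ℝ),
      ∏ q : (M ≃ₐ[ℚ] M) × Fin d, F q.1 (e q.2).1.1 (e q.2).1.2 =
        ∏ τ, ∏ i, ∏ j ∈ ({i}ᶜ : Finset (Fin n)), F τ i j := by
    intro F
    rw [Fintype.prod_prod_type]
    refine Finset.prod_congr rfl fun τ _ => ?_
    rw [← prod_OP (F τ)]
    exact Equiv.prod_comp e (fun q : OP n => F τ q.1.1 q.1.2)
  have hprod1 : ∀ (F : Fin n → Fin n → ℝ),
      ∏ s : Fin d, F (e s).1.1 (e s).1.2 = ∏ i, ∏ j ∈ ({i}ᶜ : Finset (Fin n)), F i j := by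
    intro F
    rw [← prod_OP F]
    exact Equiv.prod_comp e (fun q : OP n => F q.1.1 q.1.2)
  have hsum1 : ∀ (F : Fin n → Fin n → ℝ),
      ∑ s : Fin d, F (e s).1.1 (e s).1.2 = ∑ i, ∑ j ∈ ({i}ᶜ : Finset (Fin n)), F i j := by
    intro F
    rw [← sum_OP F]
    exact Equiv.sum_comp e (fun q : OP n => F q.1.1 q.1.2)
  have hne : ∀ g s, U g s ≠ V g s := by
    intro g s h
    have h1 := g.injective (Subtype.ext h : g (z (e s).1.1) = g (z (e s).1.2))
    have h2 := hz h1
    have h3 := (e s).2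
    rw [Finset.mem_compl, Finset.mem_singleton] at h3
    exact h3 h2.symm
  set A : ℝ := ((n : ℝ) ^ n) ^ Fintype.card (M ≃ₐ[ℚ] M) with hAdef
  have hn0 : (0 : ℝ) < (n : ℝ) ^ n := by
    rcases Nat.eq_zero_or_pos n with h | h
    · subst h; simp
    · positivity
  have key := core2 (G := M ≃ₐ[ℚ] M) U V p φ M (fun g s => (g _).2) (fun g s => (g _).2)
    hne ?_ A (by positivity) ?_ T δ hδ0 hδ1 ?_
  · refine key.trans ?_
    have h1 : ∀ (g : M ≃ₐ[ℚ] M) (x : M), ht ((g x : M) : Qb) = ht (x : Qb) := by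
      intro g x
      exact ht_conjM M (g : M →+* M) x
    simp only [hU, hV, h1]
    rw [Fintype.sum_prod_type]
    simp only [hsum1 (fun i j => ht (z i : Qb) + ht (z j : Qb))]
    rw [Finset.sum_const, Finset.card_univ, nsmul_eq_mul, sum_row (fun i => ht (z i : Qb)),
      hAdef, Real.log_pow, Real.log_pow, ← mul_add]
    apply (mul_le_mul_of_nonneg_right hcard _).trans
    · rw [add_comm]
    · have h5 : 0 ≤ ∑ i, ht (z i : Qb) := Finset.sum_nonneg fun i _ => absLogHeight_nonneg _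
      have h6 : 0 ≤ Real.log (n : ℝ) := Real.log_natCast_nonneg n
      positivity
  · intro W hW
    obtain ⟨ρ, hρ⟩ := Pool.Agent.W369.RK.conj p φ M hM hst W hW
    have hρ' : ∀ x ∈ M, ρ⁻¹ x ∈ M := fun x hx => hst ρ⁻¹ x hx
    let e : M ≃+* M :=
      { toFun := fun x => ⟨ρ x, hst ρ x x.2⟩
        invFun := fun x => ⟨ρ⁻¹ x, hρ' x x.2⟩
        left_inv := fun x => Subtype.ext (AlgEquiv.symm_apply_apply ρ (x : Qb))
        right_inv := fun x => Subtype.ext (AlgEquiv.apply_symm_apply ρ (x : Qb))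
        map_mul' := fun x y => Subtype.ext (map_mul ρ (x : Qb) y)
        map_add' := fun x y => Subtype.ext (map_add ρ (x : Qb) y) }
    let ρM : M ≃ₐ[ℚ] M := AlgEquiv.ofRingEquiv (f := e) (fun r => by
      have h1 : (algebraMap ℚ M r : M) = (r : M) := by simp
      rw [h1]
      exact map_ratCast e r)
    exact ⟨Equiv.mulLeft ρM, ρ, fun g s => rfl, fun g s => rfl, hρ⟩
  · intro ψ
    have h1 : ‖ψ (N0 U V)‖ = ∏ τ : M ≃ₐ[ℚ] M,
        ‖(Matrix.vandermonde fun i => ψ ((τ (z i) : M) : Qb)).det‖ ^ 2 := by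
      rw [N0, map_prod, norm_prod]
      simp only [map_sub]
      rw [hprod (fun τ i j => ‖ψ ((τ (z i) : M) : Qb) - ψ ((τ (z j) : M) : Qb)‖)]
      refine Finset.prod_congr rfl fun τ _ => ?_
      exact vand_norm fun i => ψ ((τ (z i) : M) : Qb)
    have h2 : ∏ q : (M ≃ₐ[ℚ] M) × Fin d, (max 1 ‖ψ (U q.1 q.2)‖ * max 1 ‖ψ (V q.1 q.2)‖) =
        ∏ τ : M ≃ₐ[ℚ] M, ∏ i, (max 1 ‖ψ ((τ (z i) : M) : Qb)‖) ^ (2 * (n - 1)) := by
      rw [hprod (fun τ i j => max 1 ‖ψ ((τ (z i) : M) : Qb)‖ * max 1 ‖ψ ((τ (z j) : M) : Qb)‖)]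
      refine Finset.prod_congr rfl fun τ _ => ?_
      exact prod_mul_row fun i => max 1 ‖ψ ((τ (z i) : M) : Qb)‖
    rw [h1, h2, hAdef, ← Finset.card_univ, ← Finset.prod_const, ← Finset.prod_mul_distrib]
    apply Finset.prod_le_prod
    · intro τ _
      positivity
    · intro τ _
      exact Pool.Agent.TH53.HR.vandermonde_le _
  · intro τ hτ
    have h1 := hT τ hτ
    rw [← hprod1 (fun i j => ‖φ ((τ (z i) : M) : Qb) - φ ((τ (z j) : M) : Qb)‖),
      ← hprod1 (fun i j => max 1 ‖φ (τ (z i) : M)‖ * max 1 ‖φ (τ (z j) : M)‖)] at h1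
    simpa only [map_sub] using h1

end Pool.Agent.TH53.RP
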