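import Mathlib
import Pool.Agent.H54.G.TH53.RP6
import Pool.Agent.H54.G.W237.RK.Main

set_option autoImplicit false
set_option linter.unusedVariables false

/-!
# The main theorem with polynomial constants
-/

namespace Pool.Agent.TH53.RP

open Polynomial IntermediateField
open Pool.Agent.W237.RK
open Pool.Agent.H58P (Qb ht)
open Pool.Agent.H58B (ht_pow)
open Pool.Agent.H58R (ht_nonneg ht_mul_le ht_inv ht_zpow ht_prod_le)
open Pool.Agent.W402.RK (rep dirichlet ht_prod_zpow)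

/-- from the Bogomolov property over `K₁(μ_∞)` to the division group -/
theorem box_step2 (K₁ : GF) (Γ : Subgroup Qbˣ) (S : Finset Qbˣ)
    (hS : Subgroup.closure (S : Set Qbˣ) = Γ) (hΓ : ∀ g ∈ Γ, (g : Qb) ∈ K₁) (D : ℕ)
    (c : ℝ) (hc : 0 < c)
    (hB : ∀ y : Qb, y ≠ 0 → (orb (kinf K₁) y).ncard ≤ D → ¬ Tor y → c ≤ ht y)
    (H : ℝ) (hH : H = ∑ i ∈ S, ht (i : Qb)) (T : ℕ) (hTpos : 0 < T) (hTc : H < c / 2 * T) :
    ∀ α γ : Qb, α ≠ 0 → γ ≠ 0 → DivG Γ γ → (orb (kinf K₁) (α / γ)).ncard ≤ D →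
      ht α < c / 2 / (T : ℝ) ^ S.card → DivG Γ α := by
  classical
  have hH0 : 0 ≤ H := by rw [hH]; exact Finset.sum_nonneg (fun i _ => ht_nonneg _)
  have hSΓ : ∀ i ∈ S, i ∈ Γ := fun i hi => by rw [← hS]; exact Subgroup.subset_closure hi
  have hTS : (0 : ℝ) < (T : ℝ) ^ S.card := by
    have : (0 : ℝ) < T := by exact_mod_cast hTpos
    positivity
  rintro α γ hα hγ0 ⟨N, hN, g, hg, hγN⟩ horb hht
  rw [← hS] at hg
  obtain ⟨a, ha⟩ := rep S hg
  obtain ⟨l, hl0, hlT, b, hb⟩ := dirichlet S T N hTpos hN a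
  set u : Qbˣ := Units.mk0 γ hγ0 with hu
  set v : Qbˣ := Units.mk0 α hα with hv
  have huN : u ^ N = g := Units.ext (by rw [Units.val_pow_eq_pow_val]; exact hγN)
  set h : Qbˣ := ∏ i ∈ S, i ^ b i with hh
  have hhΓ : h ∈ Γ := Subgroup.prod_mem _ (fun i hi => Subgroup.zpow_mem _ (hSΓ i hi) _)
  -- the test element `z = (α / γ) ^ l * h`
  set z : Qbˣ := (v / u) ^ l * h with hz
  have hzN : z ^ N = v ^ (l * N) * ∏ i ∈ S, i ^ (N * b i - l * a i) := by
    have e1 : (u ^ l) ^ N = ∏ i ∈ S, i ^ (l * a i) := by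
      rw [← pow_mul, mul_comm l N, pow_mul, huN, ha, ← Finset.prod_pow]
      apply Finset.prod_congr rfl
      intro i _
      rw [← zpow_natCast, ← zpow_mul, mul_comm]
    have e2 : h ^ N = ∏ i ∈ S, i ^ (N * b i) := by
      rw [hh, ← Finset.prod_pow]
      apply Finset.prod_congr rfl
      intro i _
      rw [← zpow_natCast, ← zpow_mul, mul_comm]
    rw [hz, div_pow, mul_pow, div_pow, e1, e2, ← pow_mul, div_mul_eq_mul_div, mul_div_assoc,
      ← Finset.prod_div_distrib]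
    congr 1
    apply Finset.prod_congr rfl
    intro i _
    rw [zpow_sub, div_eq_mul_inv]
  have hzval : (z : Qb) = ((α / γ) ^ l) / ((h⁻¹ : Qbˣ) : Qb) := by
    rw [hz, Units.val_mul, Units.val_pow_eq_pow_val, Units.val_div_eq_div_val,
      Units.val_inv_eq_inv_val, div_inv_eq_mul]
    rfl
  have hhK : ((h⁻¹ : Qbˣ) : Qb) ∈ kinf K₁ := le_kinf K₁ (hΓ _ (Subgroup.inv_mem _ hhΓ))
  have horbz : (orb (kinf K₁) (z : Qb)).ncard ≤ D := by
    rw [hzval, orb_div_ncard (Units.ne_zero _) hhK]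
    exact (orb_pow_ncard _ l).trans horb
  have hTor : Tor (z : Qb) := by
    by_contra hcon
    have h1 := hB z z.ne_zero horbz hcon
    have hT0 : (0 : ℝ) < T := by exact_mod_cast hTpos
    have hN0 : (0 : ℝ) < N := by exact_mod_cast hN
    have h2 : (N : ℝ) * ht (z : Qb) ≤ (l * N : ℕ) * ht α +
        ∑ i ∈ S, |((N * b i - l * a i : ℤ) : ℝ)| * ht (i : Qb) := by
      rw [← ht_pow, ← Units.val_pow_eq_pow_val, hzN, Units.val_mul, Units.coe_prod]
      refine (ht_mul_le _ _).trans ?_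
      simp only [Units.val_zpow_eq_zpow_val, Units.val_pow_eq_pow_val]
      have e3 : ht ((v : Qb) ^ (l * N)) = (l * N : ℕ) * ht α := by
        rw [ht_pow]
        rfl
      rw [e3]
      have e4 := ht_prod_zpow S (fun i => N * b i - l * a i)
      linarith
    have h3 : ∑ i ∈ S, |((N * b i - l * a i : ℤ) : ℝ)| * ht (i : Qb) ≤ (N / T) * H := by
      rw [hH, Finset.mul_sum]
      apply Finset.sum_le_sum
      intro i hi
      apply mul_le_mul_of_nonneg_right _ (ht_nonneg _)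
      rw [le_div_iff₀ hT0]
      have := (hb i hi).le
      rw [abs_sub_comm] at this
      have h4 : ((|N * b i - l * a i| * T : ℤ) : ℝ) ≤ ((N : ℤ) : ℝ) := by exact_mod_cast this
      push_cast at h4 ⊢
      exact h4
    have hl : (l : ℝ) ≤ (T : ℝ) ^ S.card := by exact_mod_cast hlT
    have h5 : (l * N : ℕ) * ht α ≤ N * (c / 2) := by
      push_cast
      have h6 : (l : ℝ) * ht α ≤ c / 2 := by
        calc (l : ℝ) * ht α ≤ (T : ℝ) ^ S.card * ht α :=
              mul_le_mul_of_nonneg_right hl (ht_nonneg α)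
          _ ≤ (T : ℝ) ^ S.card * (c / 2 / (T : ℝ) ^ S.card) :=
              mul_le_mul_of_nonneg_left hht.le hTS.le
          _ = c / 2 := by field_simp
      nlinarith
    have h7 : (N / T : ℝ) * H < N * (c / 2) := by
      calc (N / T : ℝ) * H = N * (H / T) := by ring
        _ < N * (c / 2) := by
          apply mul_lt_mul_of_pos_left _ hN0
          rwa [div_lt_iff₀ hT0]
    have h8 : (N : ℝ) * ht (z : Qb) < N * c := by
      have : (N : ℝ) * c = N * (c / 2) + N * (c / 2) := by ring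
      linarith
    have h9 := lt_of_mul_lt_mul_left h8 hN0.le
    linarith
  obtain ⟨m, hm, hzm⟩ := hTor
  refine ⟨l * N * m, Nat.mul_pos (Nat.mul_pos hl0 hN) hm,
    ((∏ i ∈ S, i ^ (N * b i - l * a i)) ^ m)⁻¹, ?_, ?_⟩
  · exact Subgroup.inv_mem _ (Subgroup.pow_mem _ (Subgroup.prod_mem _
      (fun i hi => Subgroup.zpow_mem _ (hSΓ i hi) _)) _)
  · have h1 : (v ^ (l * N) * ∏ i ∈ S, i ^ (N * b i - l * a i)) ^ m = 1 := by
      rw [← hzN, ← pow_mul, mul_comm, pow_mul]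
      have : z ^ m = 1 := Units.ext (by simpa using hzm)
      rw [this, one_pow]
    rw [mul_pow, ← pow_mul] at h1
    have h2 := eq_inv_of_mul_eq_one_left h1
    rw [← h2, Units.val_pow_eq_pow_val]
    rfl

/-- one step of the descent -/
theorem descend2 (hCS : S_CS2) (hKS : S_KS2) (p : ℕ) (hp : p.Prime) (K : GF) (Γ : Subgroup Qbˣ)
    (hKfd : FiniteDimensional ℚ K) (hΓfg : Γ.FG) (hΓ : ∀ g ∈ Γ, (g : Qb) ∈ K) :
    ∃ (n₀ A : ℕ), 0 < A ∧ 0 < n₀ ∧ ∀ D : ℕ, 0 < D → ∀ (Finf : GF) (n M : ℕ) (β : Qb), n₀ ≤ n →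
      ¬ p ∣ M → levInf K Γ (p ^ n * M) ≤ Finf → NormalOver K Finf → Good K Finf D (lowc A D) β →
      Rigid Finf (levInf K Γ (p ^ n * M)) β →
      ∃ γ : Qb, γ ≠ 0 ∧ DivG Γ γ ∧ γ ∈ Finf ∧
        Rigid Finf (levInf K Γ (p ^ (n - 1) * M)) (β / γ) := by
  have : Fact p.Prime := ⟨hp⟩
  have hex : Nonempty (Qb →+* PadicAlgCl p) := by
    have : CharZero (PadicAlgCl p) := inferInstance
    let _ : Algebra ℚ (PadicAlgCl p) := DivisionRing.toRatAlgebra
    exact ⟨((IsAlgClosed.lift : Qb →ₐ[ℚ] PadicAlgCl p) : Qb →+* PadicAlgCl p)⟩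
  obtain ⟨φ⟩ := hex
  obtain ⟨B, A₁, hA₁, hB'⟩ := hCS p φ K Γ hKfd hΓfg hΓ
  obtain ⟨n₀, A₂, hA₂, hn₀'⟩ := hKS p φ K Γ hKfd hΓfg hΓ B
  refine ⟨n₀ + 1, A₁ + A₂, by omega, Nat.succ_pos _, fun D hD0 => ?_⟩
  have hB := hB' D hD0
  have hn₀ := hn₀' D hD0
  have hc₁ : lowc (A₁ + A₂) D ≤ lowc A₁ D := lowc_anti hA₁ hD0 (by omega)
  have hc₂ : lowc (A₁ + A₂) D ≤ lowc A₂ D := lowc_anti hA₂ hD0 (by omega)
  intro Finf n M β hn hM hF hnorm hgood hrig
  have hMpos : 0 < M := Nat.pos_of_ne_zero (by rintro rfl; exact hM (dvd_zero p))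
  have hRpos : 0 < p ^ n * M := Nat.mul_pos (pow_pos hp.pos n) hMpos
  have hkinf : kinf K ≤ Finf := (kinf_le_levInf K Γ _).trans hF
  obtain ⟨N, hN, hrigN⟩ := exists_rigid_lev Finf K Γ (p ^ n * M) β hrig
  obtain ⟨v, M', hM', hNv⟩ := Nat.exists_eq_pow_mul_and_not_dvd hN.ne' p hp.ne_one
  have hM'pos : 0 < M' := Nat.pos_of_ne_zero (by rintro rfl; exact hM' (dvd_zero p))
  -- rigid at a high level
  have hhigh : Rigid Finf (lev K Γ (p ^ (n + B + v) * M') (p ^ n * M)) β := by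
    refine rigid_mono (lev_mono K Γ ?_ hRpos dvd_rfl) hrigN
    rw [hNv]
    exact Nat.mul_dvd_mul_right (pow_dvd_pow p (by omega)) M'
  have hlevF : ∀ i, lev K Γ (p ^ i * M') (p ^ n * M) ≤ Finf := fun i =>
    (lev_le_levInf K Γ (Nat.mul_pos (pow_pos hp.pos i) hM'pos)).trans hF
  -- cyclotomic descent
  have hdown : ∀ j, j ≤ v → ∃ γ : Qb, Tor γ ∧
      Rigid Finf (lev K Γ (p ^ (n + B + (v - j)) * M') (p ^ n * M)) (β / γ) := by
    intro j
    induction j with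
    | zero =>
      intro _
      exact ⟨1, tor_one, by rw [div_one, Nat.sub_zero]; exact hhigh⟩
    | succ j ih =>
      intro hj
      obtain ⟨γ, hγ, hr⟩ := ih (by omega)
      have hg : Good K Finf D (lowc (A₁ + A₂) D) (β / γ) :=
        hgood.div hΓ hγ.ne_zero (hkinf (tor_mem_kinf K hγ)) (divG_tor Γ hγ)
      obtain ⟨γ', hγ', hr'⟩ := hB Finf (n + B + (v - j)) n M M' (β / γ) (by omega) hM hM' hkinf
        (hlevF _) hnorm hg.ne hg.orb hg.tor hr (fun σ hσ => (hg.ht σ hσ).trans hc₁)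
      refine ⟨γ * γ', hγ.mul hγ', ?_⟩
      rw [← div_div]
      have e : n + B + (v - j) - 1 = n + B + (v - (j + 1)) := by omega
      rw [e] at hr'
      exact hr'
  obtain ⟨γ, hγ, hr⟩ := hdown v le_rfl
  rw [Nat.sub_self, Nat.add_zero] at hr
  have hγF : γ ∈ Finf := hkinf (tor_mem_kinf K hγ)
  have hg : Good K Finf D (lowc (A₁ + A₂) D) (β / γ) := hgood.div hΓ hγ.ne_zero hγF (divG_tor Γ hγ)
  obtain ⟨γ', hγ', hr'⟩ := hn₀ Finf (n + B) n M M' (β / γ) (by omega) (by omega) le_rfl hM hM' hF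
    hnorm hg.ne hg.orb hg.tor hr (fun σ hσ => (hg.ht σ hσ).trans hc₂)
  have hγ'F : γ' ∈ Finf := hF (rad_mem_levInf K Γ hγ')
  have hγ'0 : γ' ≠ 0 := by
    obtain ⟨g, -, h⟩ := hγ'
    rintro rfl
    rw [zero_pow hRpos.ne'] at h
    exact g.ne_zero h.symm
  refine ⟨γ * γ', mul_ne_zero hγ.ne_zero hγ'0, (divG_tor Γ hγ).mul ⟨_, hRpos, hγ'⟩,
    mul_mem hγF hγ'F, ?_⟩
  rw [← div_div]
  exact hr'

/-- the main theorem with polynomial constants -/
def S_MAIN2 : Prop := ∀ (K : GF) (Γ : Subgroup Qbˣ), FiniteDimensional ℚ K → Γ.FG →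
  (∀ g ∈ Γ, (g : Qb) ∈ K) → ∀ (P : Finset ℕ), (∀ p ∈ P, p.Prime) →
  ∃ A : ℕ, 0 < A ∧ ∀ D : ℕ, 0 < D → ∀ α : Qb, α ≠ 0 → (orb (fullField K Γ P) α).ncard ≤ D →
    ¬ DivG Γ α → lowc A D ≤ ht α

theorem main2 : S_CS2 → S_KS2 → S_BOG2 → S_MAIN2 := by
  intro hCS hKS hBOG K Γ hKfd hΓfg hΓ P hP
  classical
  -- constants for the primes of `P`
  have hdes : ∀ p : ℕ, ∃ (n₀ A : ℕ), 0 < A ∧ 0 < n₀ ∧ (p ∈ P → ∀ D : ℕ, 0 < D →
      ∀ (Finf : GF) (n M : ℕ)
      (β : Qb), n₀ ≤ n → ¬ p ∣ M → levInf K Γ (p ^ n * M) ≤ Finf → NormalOver K Finf →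
      Good K Finf D (lowc A D) β → Rigid Finf (levInf K Γ (p ^ n * M)) β →
      ∃ γ : Qb, γ ≠ 0 ∧ DivG Γ γ ∧ γ ∈ Finf ∧
        Rigid Finf (levInf K Γ (p ^ (n - 1) * M)) (β / γ)) := by
    intro p
    by_cases hpP : p ∈ P
    · obtain ⟨n₀, A, hA, hn, h⟩ := descend2 hCS hKS p (hP p hpP) K Γ hKfd hΓfg hΓ
      exact ⟨n₀, A, hA, hn, fun _ => h⟩
    · exact ⟨1, 1, one_pos, one_pos, fun h => absurd h hpP⟩
  choose n₀ Ap hAp hn₀ hstep using hdes
  set A₀ : ℕ := 1 + ∑ p ∈ P, Ap p with hA₀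
  have hA₀pos : 0 < A₀ := by omega
  have hA₀P : ∀ p ∈ P, Ap p ≤ A₀ := by
    intro p hp
    have h1 : Ap p ≤ ∑ p ∈ P, Ap p := Finset.single_le_sum (fun _ _ => Nat.zero_le _) hp
    omega
  -- the bottom level
  set R₀ : ℕ := ∏ p ∈ P, p ^ n₀ p with hR₀
  have hR₀pos : 0 < R₀ := Finset.prod_pos fun p hp => pow_pos (hP p hp).pos _
  set K₁ : GF := lev K Γ R₀ R₀ with hK₁
  have hK₁fd : FiniteDimensional ℚ K₁ := finiteDimensional_lev K hKfd Γ hΓfg R₀ R₀ hR₀pos hR₀pos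
  have hΓ₁ : ∀ g ∈ Γ, (g : Qb) ∈ K₁ := fun g hg => le_lev K Γ _ _ (hΓ g hg)
  obtain ⟨AB, hAB, hBog'⟩ := hBOG K₁ hK₁fd
  obtain ⟨S, hS⟩ := id hΓfg
  set H : ℝ := ∑ i ∈ S, ht (i : Qb) with hH
  have hH0 : 0 ≤ H := Finset.sum_nonneg (fun i _ => ht_nonneg _)
  -- the polynomial bound for the constant
  set g : ℕ → ℝ := fun D => (lowc A₀ D)⁻¹ * (2 * (D : ℝ)) +
    ((lowc AB D)⁻¹ * 2) * ((2 * H * (lowc AB D)⁻¹ + 2) ^ S.card * (D : ℝ)) with hg
  have hgpos : ∀ D : ℕ, 0 < D → 0 < g D := by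
    intro D hD
    have h1 := lowc_pos hA₀pos hD
    have h2 := lowc_pos hAB hD
    have h3 : (0 : ℝ) < D := by exact_mod_cast hD
    simp only [hg]
    positivity
  have hgPB : PB g := by
    have h1 : PB fun D => (2 * (D : ℝ)) := (PB.const 2).mul PB.id fun D _ => by positivity
    have h2 : PB fun D => (2 * H * (lowc AB D)⁻¹ + 2) :=
      ((PB.const (2 * H)).mul (lowc_inv_PB AB) fun D hD => by
        have := lowc_pos hAB hD
        positivity).add (PB.const 2)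
    refine ((lowc_inv_PB A₀).mul h1 fun D _ => by positivity).add
      (((lowc_inv_PB AB).mul (PB.const 2) fun D _ => by positivity).mul
        ((h2.pow (fun D hD => ?_) _).mul PB.id fun D _ => by positivity) fun D hD => ?_)
    · have := lowc_pos hAB hD
      positivity
    · have := lowc_pos hAB hD
      positivity
  obtain ⟨A, hA, hAg⟩ := hgPB.exists_lowc hgpos
  refine ⟨A, hA, fun D hD0 => ?_⟩
  have hDR : (0 : ℝ) < D := by exact_mod_cast hD0
  have hBog := hBog' D hD0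
  set c₀ : ℝ := lowc A₀ D with hc₀def
  have hc₀ : 0 < c₀ := lowc_pos hA₀pos hD0
  have hc₀P : ∀ p ∈ P, c₀ ≤ lowc (Ap p) D := fun p hp => lowc_anti (hAp p) hD0 (hA₀P p hp)
  set cB : ℝ := lowc AB D with hcBdef
  have hcB : 0 < cB := lowc_pos hAB hD0
  set T : ℕ := ⌊2 * H * cB⁻¹⌋₊ + 1 with hTdef
  have hTpos : 0 < T := Nat.succ_pos _
  have hTc : H < cB / 2 * T := by
    have h1 := Nat.lt_floor_add_one (2 * H * cB⁻¹)
    have h2 : 2 * H * cB⁻¹ < (T : ℝ) := by rw [hTdef]; push_cast; exact h1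
    have h3 : H = cB / 2 * (2 * H * cB⁻¹) := by field_simp
    calc H = cB / 2 * (2 * H * cB⁻¹) := h3
      _ < cB / 2 * T := mul_lt_mul_of_pos_left h2 (by positivity)
  have hTle : (T : ℝ) ≤ 2 * H * cB⁻¹ + 2 := by
    have h1 : ((⌊2 * H * cB⁻¹⌋₊ : ℕ) : ℝ) ≤ 2 * H * cB⁻¹ := Nat.floor_le (by positivity)
    rw [hTdef]
    push_cast
    linarith
  have hTR : (0 : ℝ) < T := by exact_mod_cast hTpos
  have hbox := box_step2 K₁ Γ S hS hΓ₁ D cB hcB hBog H hH T hTpos hTc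
  set δ : ℝ := cB / 2 / (T : ℝ) ^ S.card with hδdef
  have hδ : 0 < δ := by positivity
  have hA1 : lowc A D ≤ c₀ / (2 * D) := by
    have h1 := hAg D hD0
    have h2 : c₀⁻¹ * (2 * (D : ℝ)) ≤ g D := by
      show c₀⁻¹ * (2 * (D : ℝ)) ≤ c₀⁻¹ * (2 * (D : ℝ)) + _
      have : 0 ≤ (cB⁻¹ * 2) * ((2 * H * cB⁻¹ + 2) ^ S.card * (D : ℝ)) := by positivity
      linarith
    refine h1.trans ((inv_anti₀ (by positivity) h2).trans ?_)
    rw [mul_inv, inv_inv, ← div_eq_mul_inv]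
  have hA2 : lowc A D ≤ δ / D := by
    have h1 := hAg D hD0
    have h2 : (cB⁻¹ * 2) * ((T : ℝ) ^ S.card * (D : ℝ)) ≤ g D := by
      show _ ≤ c₀⁻¹ * (2 * (D : ℝ)) + (cB⁻¹ * 2) * ((2 * H * cB⁻¹ + 2) ^ S.card * (D : ℝ))
      have h3 : 0 ≤ c₀⁻¹ * (2 * (D : ℝ)) := by positivity
      have h4 : (T : ℝ) ^ S.card ≤ (2 * H * cB⁻¹ + 2) ^ S.card := pow_le_pow_left₀ hTR.le hTle _
      have h5 : (cB⁻¹ * 2) * ((T : ℝ) ^ S.card * (D : ℝ)) ≤
          (cB⁻¹ * 2) * ((2 * H * cB⁻¹ + 2) ^ S.card * (D : ℝ)) := by gcongr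
      linarith
    refine h1.trans ((inv_anti₀ (by positivity) h2).trans (le_of_eq ?_))
    rw [hδdef]
    field_simp
  intro α hα hD hnd
  by_contra hlt
  push Not at hlt
  apply hnd
  set Finf := fullField K Γ P with hFinf
  have hkinf : kinf K ≤ Finf := kinf_le_fullField K Γ P
  have htorF : ∀ x : Qb, Tor x → x ∈ Finf := fun x hx => hkinf (tor_mem_kinf K hx)
  have hnorm : NormalOver K Finf := normal_fullField K Γ hΓ P
  obtain ⟨e, he0, heD, heT⟩ := torRigid_small (Finf := Finf) htorF hα hD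
  have heR : (e : ℝ) ≤ D := by exact_mod_cast heD
  have hhα := ht_nonneg α
  set α₁ := α ^ e with hα₁
  have hα₁0 : α₁ ≠ 0 := pow_ne_zero _ hα
  have hht₁ : ht α₁ = e * ht α := ht_pow α _
  have hlt1 : 2 * ht α₁ ≤ c₀ := by
    have h1 := hlt.le.trans hA1
    rw [le_div_iff₀ (by positivity)] at h1
    rw [hht₁]
    nlinarith
  have hlt2 : ht α₁ < δ := by
    have h1 := lt_of_lt_of_le hlt hA2
    rw [lt_div_iff₀ hDR] at h1
    rw [hht₁]
    nlinarith
  have hgood : Good K Finf D c₀ α₁ :=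
    { ne := hα₁0
      orb := (orb_pow_ncard α _).trans hD
      tor := heT
      ht := fun σ hσ => by
        have h1 := ht_mul_le (σ α₁) α₁⁻¹
        rw [ht_inv α₁ hα₁0, Pool.Agent.H58B.ht_conj, ← div_eq_mul_inv] at h1
        linarith }
  -- a minimal level
  have hex : ∃ R : ℕ, Smooth P R ∧ ∃ γ : Qb, γ ≠ 0 ∧ DivG Γ γ ∧ γ ∈ Finf ∧
      Rigid Finf (levInf K Γ R) (α₁ / γ) := by
    obtain ⟨R, hR, hr⟩ := exists_rigid_levInf K Γ P α₁
    exact ⟨R, hR, 1, one_ne_zero, divG_tor Γ tor_one, one_mem _, by rw [div_one]; exact hr⟩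
  obtain ⟨hRs, γ, hγ0, hγd, hγF, hγr⟩ := Nat.find_spec hex
  set R := Nat.find hex with hRdef
  have hRdvd : R ∣ R₀ := by
    have hval : ∀ p ∈ P, R.factorization p < n₀ p := by
      intro p hpP
      by_contra hcon
      push Not at hcon
      have hp := hP p hpP
      obtain ⟨n, M, hM, hRn⟩ := Nat.exists_eq_pow_mul_and_not_dvd hRs.1.ne' p hp.ne_one
      have hn : R.factorization p = n := by
        rw [hRn, Nat.factorization_mul (pow_ne_zero _ hp.ne_zero)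
          (by rintro rfl; exact hM (dvd_zero p)), Finsupp.add_apply, hp.factorization_pow,
          Finsupp.single_eq_same, Nat.factorization_eq_zero_of_not_dvd hM, Nat.add_zero]
      rw [hn] at hcon
      have hg : Good K Finf D (lowc (Ap p) D) (α₁ / γ) :=
        (hgood.div hΓ hγ0 hγF hγd).mono (hc₀P p hpP)
      have hle : levInf K Γ (p ^ n * M) ≤ Finf := by
        rw [← hRn]
        exact levInf_le_fullField K Γ hRs
      obtain ⟨γ', hγ'0, hγ'd, hγ'F, hγ'r⟩ := hstep p hpP D hD0 Finf n M (α₁ / γ) hcon hM hle hnorm hg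
        (by rw [← hRn]; exact hγr)
      have hnpos : 0 < n := lt_of_lt_of_le (hn₀ p) hcon
      have hMpos : 0 < M := Nat.pos_of_ne_zero (by rintro rfl; exact hM (dvd_zero p))
      have hlt' : p ^ (n - 1) * M < R := by
        rw [hRn]
        apply Nat.mul_lt_mul_of_pos_right _ hMpos
        exact Nat.pow_lt_pow_right hp.one_lt (by omega)
      apply Nat.find_min hex hlt'
      refine ⟨hRs.of_dvd ?_, γ * γ', mul_ne_zero hγ0 hγ'0, hγd.mul hγ'd, mul_mem hγF hγ'F, ?_⟩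
      · rw [hRn]
        exact Nat.mul_dvd_mul_right (pow_dvd_pow p (by omega)) M
      · rw [← div_div]
        exact hγ'r
    rw [← Nat.factorization_le_iff_dvd hRs.1.ne' hR₀pos.ne']
    intro q
    by_cases hq : q ∈ P
    · have h1 : q ^ n₀ q ∣ R₀ := Finset.dvd_prod_of_mem _ hq
      have h2 : n₀ q ≤ R₀.factorization q :=
        ((hP q hq).pow_dvd_iff_le_factorization hR₀pos.ne').mp h1
      exact (hval q hq).le.trans h2
    · have h1 : R.factorization q = 0 := by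
        by_cases hqp : q.Prime
        · apply Nat.factorization_eq_zero_of_not_dvd
          intro h
          exact hq (hRs.2 q hqp h)
        · exact Nat.factorization_eq_zero_of_not_prime _ hqp
      rw [h1]
      exact Nat.zero_le _
  -- the conclusion
  have hle1 : levInf K Γ R ≤ kinf K₁ := by
    refine (levInf_mono K Γ hR₀pos hRdvd).trans (levInf_le ?_ ?_ ?_)
    · exact (le_lev K Γ R₀ R₀).trans (le_kinf K₁)
    · intro x hx
      exact tor_mem_kinf K₁ hx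
    · intro y hy
      exact le_kinf K₁ (rad_mem_lev K Γ hy)
  have horb : (orb (kinf K₁) (α₁ / γ)).ncard ≤ D := by
    have h1 := orb_eq_of_rigid (levInf_le_fullField K Γ hRs) hγr
    calc (orb (kinf K₁) (α₁ / γ)).ncard ≤ (orb (levInf K Γ R) (α₁ / γ)).ncard :=
          Set.ncard_le_ncard (orb_mono hle1 _) (orb_finite _ _)
      _ = (orb Finf (α₁ / γ)).ncard := by rw [h1]
      _ ≤ D := (hgood.div hΓ hγ0 hγF hγd).orb
  obtain ⟨n, hn, g, hg, h⟩ := hbox α₁ γ hα₁0 hγ0 hγd horb hlt2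
  refine ⟨e * n, Nat.mul_pos he0 hn, g, hg, ?_⟩
  rw [pow_mul]
  exact h

end Pool.Agent.TH53.RP
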