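import Mathlib
import Pool.Agent.H54.G.TH53.RP7
import Pool.Agent.H54.G.W237.RK.All

set_option autoImplicit false
set_option linter.unusedVariables false

/-!
# The height distance to the division group
-/

namespace Pool.Agent.TH53.RP

open Polynomial IntermediateField
open Pool.Agent.W237.RK
open Pool.Agent.H58P (Qb ht)
open Pool.Agent.H58B (ht_pow)
open Pool.Agent.H58R (ht_nonneg ht_mul_le ht_inv ht_zpow ht_prod_le)
open Pool.Agent.W402.RK (rep dirichlet ht_prod_zpow)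

lemma DivG.of_pow {Γ : Subgroup Qbˣ} {x : Qb} {l : ℕ} (hl : 0 < l) (h : DivG Γ (x ^ l)) :
    DivG Γ x := by
  obtain ⟨n, hn, g, hg, h⟩ := h
  exact ⟨l * n, Nat.mul_pos hl hn, g, hg, by rw [pow_mul]; exact h⟩

lemma DivG.ne_zero {Γ : Subgroup Qbˣ} {x : Qb} (h : DivG Γ x) : x ≠ 0 := by
  obtain ⟨n, hn, g, -, h⟩ := h
  rintro rfl
  rw [zero_pow hn.ne'] at h
  exact g.ne_zero h.symm

theorem dist_step (F : GF) (Γ : Subgroup Qbˣ) (S : Finset Qbˣ)
    (hS : Subgroup.closure (S : Set Qbˣ) = Γ) (hΓ : ∀ g ∈ Γ, (g : Qb) ∈ F) (D : ℕ)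
    (c : ℝ) (hc : 0 < c)
    (hB : ∀ y : Qb, y ≠ 0 → (orb F y).ncard ≤ D → ¬ DivG Γ y → c ≤ ht y)
    (H : ℝ) (hH : H = ∑ i ∈ S, ht (i : Qb)) (T : ℕ) (hTpos : 0 < T) (hTc : H < c / 2 * T) :
    ∀ α γ : Qb, α ≠ 0 → DivG Γ γ → (orb F α).ncard ≤ D → ¬ DivG Γ α →
      c / 2 / (T : ℝ) ^ S.card ≤ ht (α / γ) := by
  classical
  have hH0 : 0 ≤ H := by rw [hH]; exact Finset.sum_nonneg (fun i _ => ht_nonneg _)
  have hSΓ : ∀ i ∈ S, i ∈ Γ := fun i hi => by rw [← hS]; exact Subgroup.subset_closure hi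
  have hTS : (0 : ℝ) < (T : ℝ) ^ S.card := by
    have : (0 : ℝ) < T := by exact_mod_cast hTpos
    positivity
  intro α γ hα hγd horb hnd
  have hγ0 : γ ≠ 0 := DivG.ne_zero hγd
  obtain ⟨N, hN, g, hg, hγN⟩ := hγd
  by_contra hht
  push Not at hht
  rw [← hS] at hg
  obtain ⟨a, ha⟩ := rep S hg
  obtain ⟨l, hl0, hlT, b, hb⟩ := dirichlet S T N hTpos hN a
  set u : Qbˣ := Units.mk0 γ hγ0 with hu
  set v : Qbˣ := Units.mk0 α hα with hv
  have huN : u ^ N = g := Units.ext (by rw [Units.val_pow_eq_pow_val]; exact hγN)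
  set h : Qbˣ := ∏ i ∈ S, i ^ b i with hh
  have hhΓ : h ∈ Γ := Subgroup.prod_mem _ (fun i hi => Subgroup.zpow_mem _ (hSΓ i hi) _)
  -- the test element `w = α ^ l / h`
  set w : Qbˣ := v ^ l / h with hw
  have hwN : w ^ N = (v / u) ^ (l * N) * ∏ i ∈ S, i ^ (l * a i - N * b i) := by
    have e1 : (u ^ l) ^ N = ∏ i ∈ S, i ^ (l * a i) := by
      rw [← pow_mul, mul_comm l N, pow_mul, huN, ha, ← Finset.prod_pow]
      apply Finset.prod_congr rfl
      intro i _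
      rw [← zpow_natCast, ← zpow_mul, mul_comm]
    have e2 : h ^ N = ∏ i ∈ S, i ^ (N * b i) := by
      rw [hh, ← Finset.prod_pow]
      apply Finset.prod_congr rfl
      intro i _
      rw [← zpow_natCast, ← zpow_mul, mul_comm]
    have e3 : ∏ i ∈ S, i ^ (l * a i - N * b i) = (u ^ l) ^ N / h ^ N := by
      rw [e1, e2, ← Finset.prod_div_distrib]
      apply Finset.prod_congr rfl
      intro i _
      rw [zpow_sub, div_eq_mul_inv]
    rw [e3, hw, div_pow, ← pow_mul, ← pow_mul, div_pow, div_mul_div_comm, mul_comm (v ^ (l * N)),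
      mul_div_mul_left_eq_div]
  have hwval : (w : Qb) = α ^ l / (h : Qb) := by
    rw [hw, Units.val_div_eq_div_val, Units.val_pow_eq_pow_val]
    rfl
  have hhF : (h : Qb) ∈ F := hΓ _ hhΓ
  have horbw : (orb F (w : Qb)).ncard ≤ D := by
    rw [hwval, orb_div_ncard (Units.ne_zero _) hhF]
    exact (orb_pow_ncard _ l).trans horb
  have hwd : ¬ DivG Γ (w : Qb) := by
    intro hcon
    apply hnd
    apply DivG.of_pow hl0
    have h1 : DivG Γ (h : Qb) := ⟨1, one_pos, h, hhΓ, pow_one _⟩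
    have h2 : α ^ l = (w : Qb) * (h : Qb) := by
      rw [hwval, div_mul_cancel₀ _ (Units.ne_zero h)]
    rw [h2]
    exact hcon.mul h1
  have h1 := hB w w.ne_zero horbw hwd
  have hT0 : (0 : ℝ) < T := by exact_mod_cast hTpos
  have hN0 : (0 : ℝ) < N := by exact_mod_cast hN
  have h2 : (N : ℝ) * ht (w : Qb) ≤ (l * N : ℕ) * ht (α / γ) +
      ∑ i ∈ S, |((l * a i - N * b i : ℤ) : ℝ)| * ht (i : Qb) := by
    rw [← ht_pow, ← Units.val_pow_eq_pow_val, hwN, Units.val_mul, Units.coe_prod]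
    refine (ht_mul_le _ _).trans ?_
    simp only [Units.val_zpow_eq_zpow_val, Units.val_pow_eq_pow_val]
    have e3 : ht (((v / u : Qbˣ) : Qb) ^ (l * N)) = (l * N : ℕ) * ht (α / γ) := by
      rw [ht_pow, Units.val_div_eq_div_val]
      rfl
    rw [e3]
    have e4 := ht_prod_zpow S (fun i => l * a i - N * b i)
    linarith
  have h3 : ∑ i ∈ S, |((l * a i - N * b i : ℤ) : ℝ)| * ht (i : Qb) ≤ (N / T) * H := by
    rw [hH, Finset.mul_sum]
    apply Finset.sum_le_sum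
    intro i hi
    apply mul_le_mul_of_nonneg_right _ (ht_nonneg _)
    rw [le_div_iff₀ hT0]
    have := (hb i hi).le
    have h4 : ((|l * a i - N * b i| * T : ℤ) : ℝ) ≤ ((N : ℤ) : ℝ) := by exact_mod_cast this
    push_cast at h4 ⊢
    exact h4
  have hl : (l : ℝ) ≤ (T : ℝ) ^ S.card := by exact_mod_cast hlT
  have h5 : (l * N : ℕ) * ht (α / γ) ≤ N * (c / 2) := by
    push_cast
    have h6 : (l : ℝ) * ht (α / γ) ≤ c / 2 := by
      calc (l : ℝ) * ht (α / γ) ≤ (T : ℝ) ^ S.card * ht (α / γ) :=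
            mul_le_mul_of_nonneg_right hl (ht_nonneg _)
        _ ≤ (T : ℝ) ^ S.card * (c / 2 / (T : ℝ) ^ S.card) :=
            mul_le_mul_of_nonneg_left hht.le hTS.le
        _ = c / 2 := by field_simp
    nlinarith
  have h7 : (N / T : ℝ) * H < N * (c / 2) := by
    calc (N / T : ℝ) * H = N * (H / T) := by ring
      _ < N * (c / 2) := by
        apply mul_lt_mul_of_pos_left _ hN0
        rwa [div_lt_iff₀ hT0]
  have h8 : (N : ℝ) * ht (w : Qb) < N * c := by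
    have : (N : ℝ) * c = N * (c / 2) + N * (c / 2) := by ring
    linarith
  have h9 := lt_of_mul_lt_mul_left h8 hN0.le
  linarith

/-- the distance statement -/
def S_DIST : Prop := ∀ (K : GF) (Γ : Subgroup Qbˣ), FiniteDimensional ℚ K → Γ.FG →
  (∀ g ∈ Γ, (g : Qb) ∈ K) → ∀ (P : Finset ℕ), (∀ p ∈ P, p.Prime) →
  ∃ A : ℕ, 0 < A ∧ ∀ D : ℕ, 0 < D → ∀ α : Qb, α ≠ 0 → (orb (fullField K Γ P) α).ncard ≤ D →
    ¬ DivG Γ α → ∀ γ : Qb, DivG Γ γ → lowc A D ≤ ht (α / γ)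

theorem dist : S_MAIN2 → S_DIST := by
  intro hMain K Γ hKfd hΓfg hΓ P hP
  obtain ⟨A₁, hA₁, hB'⟩ := hMain K Γ hKfd hΓfg hΓ P hP
  obtain ⟨S, hS⟩ := id hΓfg
  set H : ℝ := ∑ i ∈ S, ht (i : Qb) with hH
  have hH0 : 0 ≤ H := Finset.sum_nonneg (fun i _ => ht_nonneg _)
  set g : ℕ → ℝ := fun D => ((lowc A₁ D)⁻¹ * 2) * (2 * H * (lowc A₁ D)⁻¹ + 2) ^ S.card with hg
  have hgpos : ∀ D : ℕ, 0 < D → 0 < g D := by
    intro D hD
    have h2 := lowc_pos hA₁ hD
    simp only [hg]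
    positivity
  have hgPB : PB g := by
    have h2 : PB fun D => (2 * H * (lowc A₁ D)⁻¹ + 2) :=
      ((PB.const (2 * H)).mul (lowc_inv_PB A₁) fun D hD => by
        have := lowc_pos hA₁ hD
        positivity).add (PB.const 2)
    refine ((lowc_inv_PB A₁).mul (PB.const 2) fun D _ => by positivity).mul
        (h2.pow (fun D hD => ?_) _) fun D hD => ?_
    · have := lowc_pos hA₁ hD
      positivity
    · have := lowc_pos hA₁ hD
      positivity
  obtain ⟨A, hA, hAg⟩ := hgPB.exists_lowc hgpos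
  refine ⟨A, hA, fun D hD0 => ?_⟩
  set cB : ℝ := lowc A₁ D with hcBdef
  have hcB : 0 < cB := lowc_pos hA₁ hD0
  set T : ℕ := ⌊2 * H * cB⁻¹⌋₊ + 1 with hTdef
  have hTpos : 0 < T := Nat.succ_pos _
  have hTc : H < cB / 2 * T := by
    have h1 := Nat.lt_floor_add_one (2 * H * cB⁻¹)
    have h2 : 2 * H * cB⁻¹ < (T : ℝ) := by rw [hTdef]; push_cast; exact h1
    have h3 : H = cB / 2 * (2 * H * cB⁻¹) := by field_simp
    calc H = cB / 2 * (2 * H * cB⁻¹) := h3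
      _ < cB / 2 * T := mul_lt_mul_of_pos_left h2 (by positivity)
  have hTle : (T : ℝ) ≤ 2 * H * cB⁻¹ + 2 := by
    have h1 : ((⌊2 * H * cB⁻¹⌋₊ : ℕ) : ℝ) ≤ 2 * H * cB⁻¹ := Nat.floor_le (by positivity)
    rw [hTdef]
    push_cast
    linarith
  have hTR : (0 : ℝ) < T := by exact_mod_cast hTpos
  have hA2 : lowc A D ≤ cB / 2 / (T : ℝ) ^ S.card := by
    have h1 := hAg D hD0
    have h4 : (T : ℝ) ^ S.card ≤ (2 * H * cB⁻¹ + 2) ^ S.card := pow_le_pow_left₀ hTR.le hTle _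
    have h2 : (cB⁻¹ * 2) * (T : ℝ) ^ S.card ≤ g D := by
      show _ ≤ (cB⁻¹ * 2) * (2 * H * cB⁻¹ + 2) ^ S.card
      gcongr
    refine h1.trans ((inv_anti₀ (by positivity) h2).trans (le_of_eq ?_))
    field_simp
  have hstep := dist_step (fullField K Γ P) Γ S hS
    (fun g hg => le_fullField K Γ P (hΓ g hg)) D cB hcB (hB' D hD0) H hH T hTpos hTc
  intro α hα horb hnd γ hγ
  exact hA2.trans (hstep α γ hα hγ horb hnd)

theorem gl2' : S_GL2 := gl2 roots
theorem cs2' : S_CS2 := cs2 gl2' lt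
theorem bog2' : S_BOG2 := bog2 cs2' frob glf2
theorem ks2' : S_KS2 := ks2 gl2' lt ki Pool.Agent.W402.RK.kd.2
theorem main2' : S_MAIN2 := main2 cs2' ks2' bog2'
theorem dist' : S_DIST := dist main2'

end Pool.Agent.TH53.RP
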